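import Pool.Agent.Helper32.FJL.Defs
import Pool.Agent.Helper35.FJL.Tails
import Pool.Agent.Helper15.FJL.TailOp

set_option autoImplicit false

/-!
First round of the fast Johnson–Lindenstrauss transform (module FJL-5 for MP_fe497f_lc): with
random input signs, the image of a unit vector under a spread matrix is flat on every set of
coordinates, up to logarithmic factors.
-/

namespace Pool.Agent.FJL

open Finset Pool.Agent.Helper67.JL

namespace Step1

/-- `(1 + 1/(2m))^m ≤ 2`. -/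
theorem one_add_pow_le (m : ℕ) (hm : 1 ≤ m) : (1 + 1 / (2 * (m : ℝ))) ^ m ≤ 2 := by
  have hm0 : (0 : ℝ) < m := by exact_mod_cast hm
  have h1 : 1 + 1 / (2 * (m : ℝ)) ≤ Real.exp (1 / (2 * (m : ℝ))) := by
    have := Real.add_one_le_exp (1 / (2 * (m : ℝ)))
    linarith
  have h2 : (1 + 1 / (2 * (m : ℝ))) ^ m ≤ Real.exp (1 / (2 * (m : ℝ))) ^ m := by
    apply pow_le_pow_left₀ _ h1
    positivity
  refine h2.trans ?_
  rw [← Real.exp_nat_mul]
  have h3 : (m : ℝ) * (1 / (2 * (m : ℝ))) = 1 / 2 := by field_simp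
  rw [h3]
  have h4 : (1 : ℝ) / 2 ≤ Real.log 2 := by
    have := Real.log_two_gt_d9
    linarith
  calc Real.exp (1 / 2) ≤ Real.exp (Real.log 2) := Real.exp_le_exp.mpr h4
    _ = 2 := Real.exp_log two_pos

/-- Union bound over the nonempty subsets. -/
theorem sum_nonempty_le {I : Type} [Fintype I] [DecidableEq I] [Nonempty I] :
    ∑ Q ∈ (univ : Finset (Finset I)).erase ∅, (1 / (2 * (Fintype.card I : ℝ))) ^ Q.card ≤ 1 := by
  have h1 : ∑ Q : Finset I, (1 / (2 * (Fintype.card I : ℝ))) ^ Q.card =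
      (1 / (2 * (Fintype.card I : ℝ)) + 1) ^ Fintype.card I := by
    have := Fintype.sum_pow_mul_eq_add_pow I (1 / (2 * (Fintype.card I : ℝ))) (1 : ℝ)
    simpa using this
  have h2 := one_add_pow_le (Fintype.card I) Fintype.card_pos
  have h3 := Finset.add_sum_erase (univ : Finset (Finset I))
    (fun Q => (1 / (2 * (Fintype.card I : ℝ))) ^ Q.card) (mem_univ ∅)
  simp only [card_empty, pow_zero] at h3
  rw [h1] at h3
  rw [add_comm (1 : ℝ)] at h2
  linarith

/-- The event for one set `Q`. -/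
theorem one_set {I : Type} [Fintype I] [DecidableEq I] [Nonempty I] (U : I → I → ℝ) (L : ℝ)
    (hL : 0 < L) (hU : Spread L U) (x : I → ℝ) (hx : ∑ j, x j ^ 2 ≤ 1) (u : ℝ) (hu : 1 ≤ u)
    (Q : Finset I) (hQ : Q.Nonempty) :
    pr (fun s : I → Bool =>
      20 * L * Real.log (2 * Fintype.card I) * (Q.card + u) / (Fintype.card I : ℝ) <
        ∑ i ∈ Q, (∑ j, U i j * (sg (s j) * x j)) ^ 2) ≤
      Real.exp (-(u + Q.card * Real.log (2 * Fintype.card I))) := by
  set m : ℝ := (Fintype.card I : ℝ) with hm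
  have hm1 : (1 : ℝ) ≤ m := by
    rw [hm]
    exact_mod_cast Fintype.card_pos
  have hm0 : 0 < m := by linarith
  set Lam := Real.log (2 * m) with hLam
  have hLam1 : (0.69 : ℝ) ≤ Lam := by
    have h1 : Real.log 2 ≤ Real.log (2 * m) := Real.log_le_log (by norm_num) (by linarith)
    have h2 := Real.log_two_gt_d9
    linarith
  set q : ℝ := (Q.card : ℝ) with hq
  have hq1 : (1 : ℝ) ≤ q := by
    rw [hq]
    exact_mod_cast hQ.card_pos
  set t : ℕ := Q.card + ⌈u⌉₊ with ht
  have htq : Q.card ≤ t := by omega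
  have ht1 : 1 ≤ t := by
    have := hQ.card_pos
    omega
  have ht2 : (t : ℝ) ≤ q + u + 1 := by
    rw [ht]
    push_cast
    have := Nat.ceil_lt_add_one (show (0 : ℝ) ≤ u by linarith)
    linarith
  obtain ⟨T, hT, hTop⟩ := tail_op U L hL.le hU x t ht1
  -- the tail as a chaos
  set w : I → Q → ℝ := fun j k => if j ∈ Tᶜ then U k j * x j else 0 with hw
  have hB : 0 < L / m := by positivity
  have hop : ∀ a : I → ℝ, ∑ k, (∑ i, a i * w i k) ^ 2 ≤ L / m * ∑ i, a i ^ 2 := by
    intro a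
    have h1 : ∀ k : Q, ∑ i, a i * w i k = ∑ j ∈ Tᶜ, U k j * (x j * a j) := by
      intro k
      simp only [hw, mul_ite, mul_zero]
      rw [sum_ite_mem, univ_inter]
      apply sum_congr rfl
      intro j _
      ring
    simp_rw [h1]
    rw [sum_coe_sort Q (fun k => (∑ j ∈ Tᶜ, U k j * (x j * a j)) ^ 2)]
    refine (hTop Q htq a).trans ?_
    have h2 : 0 ≤ ∑ j, a j ^ 2 := sum_nonneg fun j _ => sq_nonneg _
    have h3 : L / m * (∑ j, x j ^ 2) ≤ L / m := by
      have := mul_le_mul_of_nonneg_left hx hB.le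
      linarith
    exact mul_le_mul_of_nonneg_right h3 h2
  have htr : ∑ i, ∑ k, w i k ^ 2 ≤ L * q / m := by
    have h1 : ∀ j : I, ∑ k, w j k ^ 2 ≤ L * q / m * x j ^ 2 := by
      intro j
      have h2 : ∑ k, w j k ^ 2 ≤ ∑ k : Q, (U k j * x j) ^ 2 := by
        apply sum_le_sum
        intro k _
        simp only [hw]
        split_ifs
        · exact le_rfl
        · simp only [ne_eq, OfNat.ofNat_ne_zero, not_false_eq_true, zero_pow]
          positivity
      refine h2.trans ?_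
      rw [sum_coe_sort Q (fun k => (U k j * x j) ^ 2)]
      have h3 := hU Q {j} x
      simp only [sum_singleton, card_singleton, Nat.cast_one] at h3
      rw [max_eq_left hq1] at h3
      exact h3
    refine (sum_le_sum fun j _ => h1 j).trans ?_
    rw [← mul_sum]
    have : 0 ≤ L * q / m := by positivity
    nlinarith [mul_le_mul_of_nonneg_left hx this]
  have hs0 : 0 ≤ u + q * Lam := by positivity
  have hch := chaos_tail w (L / m) (L * q / m) (u + q * Lam) hB hs0 hop htr
  refine le_trans (pr_mono ?_) hch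
  intro s hs
  by_contra hcon
  push Not at hcon
  -- the head
  have hhead : ∑ i ∈ Q, (∑ j ∈ T, U i j * (sg (s j) * x j)) ^ 2 ≤ L * (q + u + 1) / m := by
    have h1 := hU Q T (fun j => sg (s j) * x j)
    refine h1.trans ?_
    have h2 : ∑ j ∈ T, (sg (s j) * x j) ^ 2 ≤ 1 := by
      refine le_trans (le_trans (le_of_eq ?_)
        (sum_le_sum_of_subset_of_nonneg (subset_univ T) fun j _ _ => sq_nonneg (x j))) hx
      apply sum_congr rfl
      intro j _
      rw [mul_pow, sg_sq, one_mul]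
    have h3 : max (Q.card : ℝ) (T.card : ℝ) ≤ q + u + 1 := by
      apply max_le
      · linarith
      · have : (T.card : ℝ) ≤ t := by exact_mod_cast hT
        linarith
    have h4 : 0 ≤ L * max (Q.card : ℝ) (T.card : ℝ) / m := by positivity
    calc L * max (Q.card : ℝ) (T.card : ℝ) / m * ∑ j ∈ T, (sg (s j) * x j) ^ 2
        ≤ L * max (Q.card : ℝ) (T.card : ℝ) / m * 1 := mul_le_mul_of_nonneg_left h2 h4
      _ ≤ L * (q + u + 1) / m := by
        rw [mul_one]
        gcongr
  have htail : ∑ i ∈ Q, (∑ j ∈ Tᶜ, U i j * (sg (s j) * x j)) ^ 2 <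
      2 * (L * q / m) + 4 * (L / m) * (u + q * Lam) := by
    refine lt_of_eq_of_lt ?_ hcon
    rw [← sum_coe_sort Q (fun i => (∑ j ∈ Tᶜ, U i j * (sg (s j) * x j)) ^ 2)]
    apply sum_congr rfl
    intro k _
    congr 1
    simp only [hw, mul_ite, mul_zero]
    rw [sum_ite_mem, univ_inter]
    apply sum_congr rfl
    intro j _
    ring
  have hsplit : ∑ i ∈ Q, (∑ j, U i j * (sg (s j) * x j)) ^ 2 ≤
      2 * ∑ i ∈ Q, (∑ j ∈ T, U i j * (sg (s j) * x j)) ^ 2 +
      2 * ∑ i ∈ Q, (∑ j ∈ Tᶜ, U i j * (sg (s j) * x j)) ^ 2 := by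
    rw [mul_sum, mul_sum, ← sum_add_distrib]
    apply sum_le_sum
    intro i _
    rw [← sum_add_sum_compl T]
    nlinarith [sq_nonneg (∑ j ∈ T, U i j * (sg (s j) * x j) -
      ∑ j ∈ Tᶜ, U i j * (sg (s j) * x j))]
  have hfin : 2 * (L * (q + u + 1) / m) + 2 * (2 * (L * q / m) + 4 * (L / m) * (u + q * Lam)) ≤
      20 * L * Lam * (q + u) / m := by
    have h1 : 2 * (L * (q + u + 1) / m) + 2 * (2 * (L * q / m) + 4 * (L / m) * (u + q * Lam)) =
        (L / m) * (2 * (q + u + 1) + 4 * q + 8 * (u + q * Lam)) := by ring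
    have h2 : 20 * L * Lam * (q + u) / m = (L / m) * (20 * Lam * (q + u)) := by ring
    rw [h1, h2]
    apply mul_le_mul_of_nonneg_left _ hB.le
    nlinarith [mul_le_mul_of_nonneg_right hLam1 (show (0 : ℝ) ≤ q by linarith),
      mul_le_mul_of_nonneg_right hLam1 (show (0 : ℝ) ≤ u by linarith)]
  linarith

end Step1

theorem step1 {I : Type} [Fintype I] [DecidableEq I] [Nonempty I] (U : I → I → ℝ) (L : ℝ)
    (hL : 0 < L) (hU : Spread L U) (x : I → ℝ) (hx : ∑ j, x j ^ 2 ≤ 1) (u : ℝ) (hu : 1 ≤ u) :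
    pr (fun s : I → Bool => ∃ Q : Finset I,
      20 * L * Real.log (2 * Fintype.card I) * (Q.card + u) / (Fintype.card I : ℝ) <
        ∑ i ∈ Q, (∑ j, U i j * (sg (s j) * x j)) ^ 2) ≤ Real.exp (-u) := by
  have hm1 : (1 : ℝ) ≤ (Fintype.card I : ℝ) := by exact_mod_cast Fintype.card_pos
  have hLam : 0 ≤ Real.log (2 * Fintype.card I) := Real.log_nonneg (by linarith)
  refine le_trans (pr_mono (q := fun s => ∃ Q ∈ (univ : Finset (Finset I)).erase ∅,
    20 * L * Real.log (2 * Fintype.card I) * (Q.card + u) / (Fintype.card I : ℝ) <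
        ∑ i ∈ Q, (∑ j, U i j * (sg (s j) * x j)) ^ 2) ?_) ?_
  · rintro s ⟨Q, hQ⟩
    refine ⟨Q, ?_, hQ⟩
    rw [mem_erase]
    refine ⟨?_, mem_univ _⟩
    rintro rfl
    rw [sum_empty] at hQ
    have : 0 ≤ 20 * L * Real.log (2 * Fintype.card I) * (((∅ : Finset I).card : ℝ) + u) /
        (Fintype.card I : ℝ) := by positivity
    linarith
  · refine (pr_exists_le _ _).trans ?_
    have h1 : ∀ Q ∈ (univ : Finset (Finset I)).erase ∅, pr (fun s : I → Bool =>
      20 * L * Real.log (2 * Fintype.card I) * (Q.card + u) / (Fintype.card I : ℝ) <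
        ∑ i ∈ Q, (∑ j, U i j * (sg (s j) * x j)) ^ 2) ≤
        Real.exp (-u) * (1 / (2 * (Fintype.card I : ℝ))) ^ Q.card := by
      intro Q hQ
      rw [mem_erase] at hQ
      refine (Step1.one_set U L hL hU x hx u hu Q (nonempty_iff_ne_empty.mpr hQ.1)).trans
        (le_of_eq ?_)
      rw [neg_add, Real.exp_add, ← mul_neg, Real.exp_nat_mul, Real.exp_neg, Real.exp_neg,
        Real.exp_log (by linarith), one_div]
    refine (sum_le_sum h1).trans ?_
    rw [← mul_sum]
    have h2 := Step1.sum_nonempty_le (I := I)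
    have h3 := Real.exp_pos (-u)
    nlinarith
end Pool.Agent.FJL
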